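import Mathlib
import Pool.Agent.Q256.T4.Def
import Pool.Agent.Q256.CI.Line

set_option autoImplicit false

/-!
The height of a quadratic point and the coefficients of its minimal polynomial on a line.
-/

namespace Pool.Agent.Q256.T4

open Finset
open Pool.Agent.Q256.CI

theorem rt_sq (D : ℤ) : rt D ^ 2 = (D : ℂ) := by
  unfold rt
  rw [← Complex.cpow_nat_mul]
  norm_num

theorem half_real {n : ℕ} {L : Fin n → Fin (n + 2) → ℤ} {u v : Fin (n + 2) → ℤ}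
    (h : Reduced L u v) (θ : ℝ) : ∃ k, (qq v : ℝ) ≤ 2 * |(v k : ℝ) + θ * u k| := by
  by_contra hcon
  push Not at hcon
  let S : Set ℝ := ⋂ k, {x : ℝ | 2 * |(v k : ℝ) + x * u k| < (qq v : ℝ)}
  have hopen : IsOpen S := by
    refine isOpen_iInter_of_finite (fun k => ?_)
    exact isOpen_lt (by fun_prop) continuous_const
  have hmem : θ ∈ S := Set.mem_iInter.2 (fun k => hcon k)
  obtain ⟨x, hx⟩ := Rat.denseRange_cast.exists_mem_open hopen ⟨θ, hmem⟩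
  obtain ⟨k, hk⟩ := h.half x
  have h1 : 2 * |(v k : ℝ) + (x : ℝ) * u k| < (qq v : ℝ) := Set.mem_iInter.1 hx k
  have h2 : (qq v : ℝ) ≤ 2 * |(v k : ℝ) + (x : ℝ) * u k| := by exact_mod_cast hk
  linarith

theorem half_complex {n : ℕ} {L : Fin n → Fin (n + 2) → ℤ} {u v : Fin (n + 2) → ℤ}
    (h : Reduced L u v) (θ : ℂ) : ∃ k, (qq v : ℝ) ≤ 2 * ‖(v k : ℂ) + θ * u k‖ := by
  obtain ⟨k, hk⟩ := half_real h θ.re
  refine ⟨k, hk.trans ?_⟩
  have h1 := Complex.abs_re_le_norm ((v k : ℂ) + θ * u k)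
  have h2 : ((v k : ℂ) + θ * u k).re = (v k : ℝ) + θ.re * u k := by simp
  rw [h2] at h1
  linarith

/-- the sup norm of a combination of a reduced basis. -/
theorem norm_bounds {n : ℕ} {L : Fin n → Fin (n + 2) → ℤ} {u v : Fin (n + 2) → ℤ}
    (h : Reduced L u v) (σ τ : ℂ) (hτ : τ ≠ 0) :
    ‖fun k => σ * (u k : ℂ) + τ * (v k : ℂ)‖ ≤ ‖σ‖ * qq u + ‖τ‖ * qq v ∧
    ‖τ‖ * qq v ≤ 2 * ‖fun k => σ * (u k : ℂ) + τ * (v k : ℂ)‖ ∧
    ‖σ‖ * qq u ≤ 3 * ‖fun k => σ * (u k : ℂ) + τ * (v k : ℂ)‖ := by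
  have hcu : ∀ k, ‖(u k : ℂ)‖ ≤ qq u := by
    intro k
    rw [Complex.norm_intCast]
    exact_mod_cast le_qq u k
  have hcv : ∀ k, ‖(v k : ℂ)‖ ≤ qq v := by
    intro k
    rw [Complex.norm_intCast]
    exact_mod_cast le_qq v k
  have h2 : ‖τ‖ * qq v ≤ 2 * ‖fun k => σ * (u k : ℂ) + τ * (v k : ℂ)‖ := by
    obtain ⟨k, hk⟩ := half_complex h (σ / τ)
    have h1 := norm_le_pi_norm (fun k => σ * (u k : ℂ) + τ * (v k : ℂ)) k
    have h3 : σ * (u k : ℂ) + τ * (v k : ℂ) = τ * ((v k : ℂ) + σ / τ * u k) := by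
      field_simp; ring
    simp only [h3, norm_mul] at h1
    have h4 : ‖τ‖ * (qq v : ℝ) ≤ ‖τ‖ * (2 * ‖(v k : ℂ) + σ / τ * u k‖) :=
      mul_le_mul_of_nonneg_left hk (norm_nonneg _)
    calc ‖τ‖ * (qq v : ℝ) ≤ ‖τ‖ * (2 * ‖(v k : ℂ) + σ / τ * u k‖) := h4
      _ = 2 * (‖τ‖ * ‖(v k : ℂ) + σ / τ * u k‖) := by ring
      _ ≤ 2 * ‖fun k => σ * (u k : ℂ) + τ * (v k : ℂ)‖ := by
        refine mul_le_mul_of_nonneg_left (h1.trans (le_of_eq ?_)) (by norm_num)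
        rfl
  refine ⟨?_, h2, ?_⟩
  · rw [pi_norm_le_iff_of_nonneg (by positivity)]
    intro k
    refine (norm_add_le _ _).trans ?_
    rw [norm_mul, norm_mul]
    exact add_le_add (mul_le_mul_of_nonneg_left (hcu k) (norm_nonneg _))
      (mul_le_mul_of_nonneg_left (hcv k) (norm_nonneg _))
  · obtain ⟨k, hk⟩ := exists_qq u
    have h1 := norm_le_pi_norm (fun k => σ * (u k : ℂ) + τ * (v k : ℂ)) k
    have h3 : ‖σ * (u k : ℂ)‖ = ‖σ‖ * qq u := by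
      rw [norm_mul, Complex.norm_intCast]
      have : |(u k : ℝ)| = (qq u : ℝ) := by exact_mod_cast hk
      rw [this]
    have h4 : ‖σ * (u k : ℂ)‖ ≤ ‖σ * (u k : ℂ) + τ * (v k : ℂ)‖ + ‖τ * (v k : ℂ)‖ := by
      have : σ * (u k : ℂ) = (σ * (u k : ℂ) + τ * (v k : ℂ)) - τ * (v k : ℂ) := by ring
      conv_lhs => rw [this]
      exact norm_sub_le _ _
    have h5 : ‖τ * (v k : ℂ)‖ ≤ ‖τ‖ * qq v := by
      rw [norm_mul]
      exact mul_le_mul_of_nonneg_left (hcv k) (norm_nonneg _)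
    rw [h3] at h4
    linarith

theorem H2_bounds {n : ℕ} {p q : Fin (n + 2) → ℤ} {D : ℤ} {L : Fin n → Fin (n + 2) → ℤ}
    {u v : Fin (n + 2) → ℤ} {a b e f c0 s1 s2 t1 t2 : ℤ}
    (h : Rep p q D L u v a b e f c0 s1 s2 t1 t2) :
    H2 p q D ≤ 100 * ((max (a.natAbs * qq v ^ 2)
        (max (b.natAbs * (qq u * qq v)) (e.natAbs * qq u ^ 2)) : ℕ) : ℝ) ∧
    ((max (a.natAbs * qq v ^ 2)
        (max (b.natAbs * (qq u * qq v)) (e.natAbs * qq u ^ 2)) : ℕ) : ℝ) ≤ 100 * H2 p q D := by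
  set r := rt D with hr
  have hr2 : r ^ 2 = (D : ℂ) := rt_sq D
  set σ : ℂ := s1 + s2 * r with hσ
  set τ : ℂ := t1 + t2 * r with hτ
  set σ' : ℂ := s1 - s2 * r with hσ'
  set τ' : ℂ := t1 - t2 * r with hτ'
  have hc0 : (0 : ℝ) < c0 := by exact_mod_cast h.cpos
  have e1 : σ * σ' = c0 * e := by
    have : ((s1 ^ 2 - D * s2 ^ 2 : ℤ) : ℂ) = ((c0 * e : ℤ) : ℂ) := by rw [h.he]
    push_cast at this
    rw [← this, hσ, hσ']
    linear_combination (-(s2 : ℂ) ^ 2) * hr2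
  have e2 : τ * τ' = c0 * a := by
    have : ((t1 ^ 2 - D * t2 ^ 2 : ℤ) : ℂ) = ((c0 * a : ℤ) : ℂ) := by rw [h.ha]
    push_cast at this
    rw [← this, hτ, hτ']
    linear_combination (-(t2 : ℂ) ^ 2) * hr2
  have e3 : σ * τ' + σ' * τ = -(c0 * b) := by
    have : ((2 * (s1 * t1 - D * (s2 * t2)) : ℤ) : ℂ) = ((-(c0 * b) : ℤ) : ℂ) := by rw [h.hb]
    push_cast at this
    rw [← this, hσ, hσ', hτ, hτ']
    linear_combination (-2 * (s2 : ℂ) * t2) * hr2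
  have ha0 : a ≠ 0 := h.quad.a0
  have hca : (c0 : ℂ) * a ≠ 0 := by
    have : c0 * a ≠ 0 := mul_ne_zero h.cpos.ne' ha0
    exact_mod_cast this
  have hτ0 : τ ≠ 0 := by
    intro h0; rw [h0, zero_mul] at e2; exact hca e2.symm
  have hτ0' : τ' ≠ 0 := by
    intro h0; rw [h0, mul_zero] at e2; exact hca e2.symm
  have hX1 : (fun k => (p k : ℂ) + (q k : ℂ) * rt D) =
      fun k => σ * (u k : ℂ) + τ * (v k : ℂ) := by
    funext k
    rw [h.hp k, h.hq k, ← hr, hσ, hτ]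
    push_cast; ring
  have hX2 : (fun k => (p k : ℂ) - (q k : ℂ) * rt D) =
      fun k => σ' * (u k : ℂ) + τ' * (v k : ℂ) := by
    funext k
    rw [h.hp k, h.hq k, ← hr, hσ', hτ']
    push_cast; ring
  obtain ⟨a1, a2, a3⟩ := norm_bounds h.red σ τ hτ0
  obtain ⟨b1, b2, b3⟩ := norm_bounds h.red σ' τ' hτ0'
  have hH : H2 p q D = ‖fun k => σ * (u k : ℂ) + τ * (v k : ℂ)‖ *
      ‖fun k => σ' * (u k : ℂ) + τ' * (v k : ℂ)‖ / c0 := by
    unfold H2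
    rw [hX1, hX2, h.hc]
  rw [hH]
  set X1 : ℝ := ‖fun k => σ * (u k : ℂ) + τ * (v k : ℂ)‖ with hX1d
  set X2 : ℝ := ‖fun k => σ' * (u k : ℂ) + τ' * (v k : ℂ)‖ with hX2d
  have hX1n : 0 ≤ X1 := norm_nonneg _
  have hX2n : 0 ≤ X2 := norm_nonneg _
  set U : ℝ := (qq u : ℝ) with hU
  set V : ℝ := (qq v : ℝ) with hV
  have hUn : 0 ≤ U := Nat.cast_nonneg _
  have hVn : 0 ≤ V := Nat.cast_nonneg _
  have f1 : (‖σ‖ * U) * (‖σ'‖ * U) = c0 * (|(e : ℝ)| * U ^ 2) := by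
    have : ‖σ‖ * ‖σ'‖ = c0 * |(e : ℝ)| := by
      rw [← norm_mul, e1, norm_mul, Complex.norm_intCast, Complex.norm_intCast, abs_of_pos hc0]
    linear_combination U ^ 2 * this
  have f2 : (‖τ‖ * V) * (‖τ'‖ * V) = c0 * (|(a : ℝ)| * V ^ 2) := by
    have : ‖τ‖ * ‖τ'‖ = c0 * |(a : ℝ)| := by
      rw [← norm_mul, e2, norm_mul, Complex.norm_intCast, Complex.norm_intCast, abs_of_pos hc0]
    linear_combination V ^ 2 * this
  have g3 : ‖σ * τ' + σ' * τ‖ = c0 * |(b : ℝ)| := by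
    rw [e3, norm_neg, norm_mul, Complex.norm_intCast, Complex.norm_intCast, abs_of_pos hc0]
  have f3 : (‖σ‖ * U) * (‖τ'‖ * V) ≤ (‖σ'‖ * U) * (‖τ‖ * V) + c0 * (|(b : ℝ)| * (U * V)) := by
    have h1 : ‖σ‖ * ‖τ'‖ ≤ ‖σ'‖ * ‖τ‖ + c0 * |(b : ℝ)| := by
      rw [← norm_mul, ← norm_mul, ← g3]
      have : σ * τ' = (σ * τ' + σ' * τ) - σ' * τ := by ring
      calc ‖σ * τ'‖ = ‖(σ * τ' + σ' * τ) - σ' * τ‖ := by rw [← this]
        _ ≤ ‖σ * τ' + σ' * τ‖ + ‖σ' * τ‖ := norm_sub_le _ _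
        _ = _ := by ring
    have h2 := mul_le_mul_of_nonneg_right h1 (mul_nonneg hUn hVn)
    linarith
  have f4 : (‖σ'‖ * U) * (‖τ‖ * V) ≤ (‖σ‖ * U) * (‖τ'‖ * V) + c0 * (|(b : ℝ)| * (U * V)) := by
    have h1 : ‖σ'‖ * ‖τ‖ ≤ ‖σ‖ * ‖τ'‖ + c0 * |(b : ℝ)| := by
      rw [← norm_mul, ← norm_mul, ← g3]
      have : σ' * τ = (σ * τ' + σ' * τ) - σ * τ' := by ring
      calc ‖σ' * τ‖ = ‖(σ * τ' + σ' * τ) - σ * τ'‖ := by rw [← this]
        _ ≤ ‖σ * τ' + σ' * τ‖ + ‖σ * τ'‖ := norm_sub_le _ _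
        _ = _ := by ring
    have h2 := mul_le_mul_of_nonneg_right h1 (mul_nonneg hUn hVn)
    linarith
  have f5 : c0 * (|(b : ℝ)| * (U * V)) ≤
      (‖σ‖ * U) * (‖τ'‖ * V) + (‖σ'‖ * U) * (‖τ‖ * V) := by
    have h1 : c0 * |(b : ℝ)| ≤ ‖σ‖ * ‖τ'‖ + ‖σ'‖ * ‖τ‖ := by
      rw [← norm_mul, ← norm_mul, ← g3]
      exact norm_add_le _ _
    have h2 := mul_le_mul_of_nonneg_right h1 (mul_nonneg hUn hVn)
    linarith
  -- abbreviations
  have hx1n : 0 ≤ ‖σ‖ * U := mul_nonneg (norm_nonneg _) hUn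
  have hx2n : 0 ≤ ‖σ'‖ * U := mul_nonneg (norm_nonneg _) hUn
  have hy1n : 0 ≤ ‖τ‖ * V := mul_nonneg (norm_nonneg _) hVn
  have hy2n : 0 ≤ ‖τ'‖ * V := mul_nonneg (norm_nonneg _) hVn
  generalize ‖σ‖ * U = x1 at *
  generalize ‖σ'‖ * U = x2 at *
  generalize ‖τ‖ * V = y1 at *
  generalize ‖τ'‖ * V = y2 at *
  have hΓ : ((max (a.natAbs * qq v ^ 2)
        (max (b.natAbs * (qq u * qq v)) (e.natAbs * qq u ^ 2)) : ℕ) : ℝ) =
      max (|(a : ℝ)| * V ^ 2) (max (|(b : ℝ)| * (U * V)) (|(e : ℝ)| * U ^ 2)) := by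
    push_cast
    simp only [Nat.cast_natAbs, Int.cast_abs, hU, hV]
  rw [hΓ]
  set Γ : ℝ := max (|(a : ℝ)| * V ^ 2) (max (|(b : ℝ)| * (U * V)) (|(e : ℝ)| * U ^ 2)) with hΓd
  have k1 : |(a : ℝ)| * V ^ 2 ≤ Γ := le_max_left _ _
  have k2 : |(b : ℝ)| * (U * V) ≤ Γ := (le_max_left _ _).trans (le_max_right _ _)
  have k3 : |(e : ℝ)| * U ^ 2 ≤ Γ := (le_max_right _ _).trans (le_max_right _ _)
  have hΓn : 0 ≤ Γ := le_trans (by positivity) k1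
  have m1 : c0 * (|(a : ℝ)| * V ^ 2) ≤ c0 * Γ := mul_le_mul_of_nonneg_left k1 hc0.le
  have m2 : c0 * (|(b : ℝ)| * (U * V)) ≤ c0 * Γ := mul_le_mul_of_nonneg_left k2 hc0.le
  have m3 : c0 * (|(e : ℝ)| * U ^ 2) ≤ c0 * Γ := mul_le_mul_of_nonneg_left k3 hc0.le
  have hGn : 0 ≤ c0 * Γ := mul_nonneg hc0.le hΓn
  have hzw : (x1 * y2) * (x2 * y1) ≤ (c0 * Γ) ^ 2 := by
    have : (x1 * y2) * (x2 * y1) = (x1 * x2) * (y1 * y2) := by ring
    rw [this, f1, f2, pow_two (c0 * Γ)]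
    exact mul_le_mul m3 m1 (by positivity) hGn
  have hz : 0 ≤ x1 * y2 := mul_nonneg hx1n hy2n
  have hw : 0 ≤ x2 * y1 := mul_nonneg hx2n hy1n
  have hsum : x1 * y2 + x2 * y1 ≤ 3 * (c0 * Γ) := by
    rcases le_total (x1 * y2) (x2 * y1) with h1 | h1
    · have h2 : x1 * y2 ≤ c0 * Γ := by
        by_contra hcon
        push Not at hcon
        have h3 : (c0 * Γ) * (c0 * Γ) < (x1 * y2) * (x2 * y1) :=
          mul_lt_mul'' hcon (lt_of_lt_of_le hcon h1) hGn hGn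
        rw [pow_two] at hzw
        linarith
      linarith
    · have h2 : x2 * y1 ≤ c0 * Γ := by
        by_contra hcon
        push Not at hcon
        have h3 : (c0 * Γ) * (c0 * Γ) < (x1 * y2) * (x2 * y1) :=
          mul_lt_mul'' (lt_of_lt_of_le hcon h1) hcon hGn hGn
        rw [pow_two] at hzw
        linarith
      linarith
  constructor
  · rw [div_le_iff₀ hc0]
    have h1 : X1 * X2 ≤ (x1 + y1) * (x2 + y2) :=
      mul_le_mul a1 b1 hX2n (by linarith)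
    have h2 : (x1 + y1) * (x2 + y2) = x1 * x2 + y1 * y2 + (x1 * y2 + x2 * y1) := by ring
    have h3 : 100 * Γ * c0 = 100 * (c0 * Γ) := by ring
    rw [h2, f1, f2] at h1
    rw [h3]
    linarith
  · have hXX : X1 * X2 = c0 * (X1 * X2 / c0) := by field_simp
    have h0 : 0 ≤ X1 * X2 := mul_nonneg hX1n hX2n
    have l1 : c0 * (|(e : ℝ)| * U ^ 2) ≤ 9 * (X1 * X2) := by
      rw [← f1]
      refine (mul_le_mul a3 b3 hx2n (by linarith)).trans (le_of_eq (by ring))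
    have l2 : c0 * (|(a : ℝ)| * V ^ 2) ≤ 4 * (X1 * X2) := by
      rw [← f2]
      refine (mul_le_mul a2 b2 hy2n (by linarith)).trans (le_of_eq (by ring))
    have l3 : c0 * (|(b : ℝ)| * (U * V)) ≤ 12 * (X1 * X2) := by
      have h1 : x1 * y2 ≤ 6 * (X1 * X2) :=
        (mul_le_mul a3 b2 hy2n (by linarith)).trans (le_of_eq (by ring))
      have h2 : x2 * y1 ≤ 6 * (X1 * X2) :=
        (mul_le_mul b3 a2 hy1n (by linarith)).trans (le_of_eq (by ring))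
      linarith
    have hd : ∀ y : ℝ, c0 * y ≤ 12 * (X1 * X2) → y ≤ 100 * (X1 * X2 / c0) := by
      intro y hy
      rw [hXX] at hy
      have h1 : c0 * y ≤ c0 * (12 * (X1 * X2 / c0)) := by linarith
      have h2 := le_of_mul_le_mul_left h1 hc0
      have h3 : 0 ≤ X1 * X2 / c0 := div_nonneg h0 hc0.le
      linarith
    exact max_le (hd _ (by linarith)) (max_le (hd _ (by linarith)) (hd _ (by linarith)))

end Pool.Agent.Q256.T4
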