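import Mathlib
import Pool.Agent.Q256.T4.Def
import Pool.Agent.Q256.CI.Line

set_option autoImplicit false

/-!
Every quadratic point of projective space has a representation on a line with a reduced basis.
-/

namespace Pool.Agent.Q256.T4

open Finset
open Pool.Agent.Q256.CI

theorem gcd3 (A B E : ℤ) (hA : A ≠ 0) : ∃ c a b e x y z : ℤ, 0 < c ∧ A = c * a ∧ B = c * b ∧
    E = c * e ∧ x * a + y * b + z * e = 1 := by
  have hd1 : (Int.gcd B E : ℤ) ∣ B := Int.gcd_dvd_left B E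
  have hd2 : (Int.gcd B E : ℤ) ∣ E := Int.gcd_dvd_right B E
  have hc1 : (Int.gcd A (Int.gcd B E : ℤ) : ℤ) ∣ A := Int.gcd_dvd_left A _
  have hc2 : (Int.gcd A (Int.gcd B E : ℤ) : ℤ) ∣ (Int.gcd B E : ℤ) := Int.gcd_dvd_right A _
  have hb1 := Int.gcd_eq_gcd_ab A (Int.gcd B E : ℤ)
  have hb2 := Int.gcd_eq_gcd_ab B E
  have hcpos : (0 : ℤ) < (Int.gcd A (Int.gcd B E : ℤ) : ℤ) := by
    have : 0 < Int.gcd A (Int.gcd B E : ℤ) := Int.gcd_pos_of_ne_zero_left _ hA
    exact_mod_cast this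
  set c : ℤ := (Int.gcd A (Int.gcd B E : ℤ) : ℤ) with hc
  obtain ⟨a, ha⟩ := hc1
  obtain ⟨b, hb⟩ := hc2.trans hd1
  obtain ⟨e, he⟩ := hc2.trans hd2
  refine ⟨c, a, b, e, A.gcdA (Int.gcd B E : ℤ), B.gcdA E * A.gcdB (Int.gcd B E : ℤ),
    B.gcdB E * A.gcdB (Int.gcd B E : ℤ), hcpos, ha, hb, he, ?_⟩
  have h1 : c * (A.gcdA (Int.gcd B E : ℤ) * a + B.gcdA E * A.gcdB (Int.gcd B E : ℤ) * b +
      B.gcdB E * A.gcdB (Int.gcd B E : ℤ) * e) = c * 1 := by
    rw [mul_one]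
    conv_rhs => rw [hb1]
    generalize hX : A.gcdA (Int.gcd B E : ℤ) = X
    generalize hY : A.gcdB (Int.gcd B E : ℤ) = Y
    rw [hb2]
    linear_combination (-X) * ha - (B.gcdA E * Y) * hb - (B.gcdB E * Y) * he
  exact mul_left_cancel₀ hcpos.ne' h1

theorem dvd_of_sqf {c m k D : ℤ} (hc : c ≠ 0) (hD : Squarefree D) (h : c ^ 2 * k = D * m ^ 2) :
    c ∣ m := by
  have hg : 0 < Int.gcd c m := Int.gcd_pos_of_ne_zero_left _ hc
  obtain ⟨c', m', hcop, hc', hm'⟩ := Int.exists_gcd_one hg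
  have hg0 : (Int.gcd c m : ℤ) ≠ 0 := by exact_mod_cast hg.ne'
  have h1 : c' ^ 2 * k = D * m' ^ 2 := by
    have h2 : (Int.gcd c m : ℤ) ^ 2 * (c' ^ 2 * k) = (Int.gcd c m : ℤ) ^ 2 * (D * m' ^ 2) := by
      have h3 : (c' * (Int.gcd c m : ℤ)) ^ 2 * k = D * (m' * (Int.gcd c m : ℤ)) ^ 2 := by
        rw [← hc', ← hm']; exact h
      linear_combination h3
    exact mul_left_cancel₀ (pow_ne_zero 2 hg0) h2
  have h2 : IsCoprime (c' ^ 2) (m' ^ 2) := (Int.isCoprime_iff_gcd_eq_one.2 hcop).pow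
  have h3 : c' ^ 2 ∣ D := h2.dvd_of_dvd_mul_right ⟨k, h1.symm⟩
  have h4 : IsUnit c' := hD c' (by rw [← sq]; exact h3)
  have h5 : c' * (Int.gcd c m : ℤ) ∣ m' * (Int.gcd c m : ℤ) :=
    mul_dvd_mul_right (h4.dvd (a := m')) _
  exact (dvd_of_eq hc').trans (h5.trans (dvd_of_eq hm'.symm))

theorem exists_rep {n : ℕ} (p q : Fin (n + 2) → ℤ) (D : ℤ) (hD : Squarefree D) (hD1 : D ≠ 1)
    (hpq : ∃ i j, p i * q j ≠ p j * q i) :
    ∃ (L : Fin n → Fin (n + 2) → ℤ) (u v : Fin (n + 2) → ℤ) (a b e f c0 s1 s2 t1 t2 : ℤ),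
      Rep p q D L u v a b e f c0 s1 s2 t1 t2 := by
  classical
  -- the line
  obtain ⟨L, -, hind, hLp, hLq⟩ := Pool.Agent.Q256.LN.line_small (n := n)
    (2 * (max (qq p) (qq q)) ^ 2) (max (qq p) (qq q)) le_rfl p q
    (fun k => (le_qq p k).trans (by exact_mod_cast le_max_left _ _))
    (fun k => (le_qq q k).trans (by exact_mod_cast le_max_right _ _)) hpq
  obtain ⟨u, v, hr⟩ := exists_reduced L hind
  obtain ⟨s1, t1, hp⟩ := hr.span p hLp
  obtain ⟨s2, t2, hq⟩ := hr.span q hLq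
  obtain ⟨i0, j0, hij⟩ := hpq
  have hδ : s1 * t2 - s2 * t1 ≠ 0 := by
    intro h
    apply hij
    rw [hp i0, hp j0, hq i0, hq j0]
    linear_combination (u i0 * v j0 - u j0 * v i0) * h
  have hA : t1 ^ 2 - D * t2 ^ 2 ≠ 0 := by
    intro h
    by_cases ht : t2 = 0
    · have h1 : t1 = 0 := by
        rw [ht] at h
        have : t1 ^ 2 = 0 := by linarith
        exact pow_eq_zero_iff (by norm_num) |>.1 this
      apply hδ
      rw [ht, h1]; ring
    · exact T3.not_sq hD hD1 t1 t2 ht (by linarith)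
  obtain ⟨c, a, b', e, x, y, z, hcpos, ha, hb, he, hbez⟩ := gcd3 (t1 ^ 2 - D * t2 ^ 2)
    (2 * (s1 * t1 - D * (s2 * t2))) (s1 ^ 2 - D * s2 ^ 2) hA
  have hdisc : c ^ 2 * (b' ^ 2 - 4 * a * e) = D * (2 * (s1 * t2 - s2 * t1)) ^ 2 := by
    have h1 : c ^ 2 * (b' ^ 2 - 4 * a * e) = (c * b') ^ 2 - 4 * (c * a) * (c * e) := by ring
    rw [h1, ← ha, ← hb, ← he]; ring
  obtain ⟨f, hf⟩ := dvd_of_sqf hcpos.ne' hD hdisc
  have hf0 : f ≠ 0 := by
    rintro rfl
    apply hδ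
    linarith
  have hdisc2 : b' ^ 2 - 4 * a * e = f ^ 2 * D := by
    rw [hf] at hdisc
    have h1 : c ^ 2 * (b' ^ 2 - 4 * a * e) = c ^ 2 * (f ^ 2 * D) := by rw [hdisc]; ring
    exact mul_left_cancel₀ (pow_ne_zero 2 hcpos.ne') h1
  -- the content
  let m : Fin (n + 2) → Fin (n + 2) → ℤ := fun i j =>
    if i = j then e * u i ^ 2 + b' * (u i * v i) + a * v i ^ 2
    else 2 * e * (u i * u j) + b' * (u i * v j + u j * v i) + 2 * a * (v i * v j)
  have hm : ∀ i j, nc p q D i j = c * m i j := by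
    intro i j
    unfold nc
    simp only [m]
    split_ifs with hij
    · rw [hp i, hq i]
      linear_combination u i ^ 2 * he + u i * v i * hb + v i ^ 2 * ha
    · rw [hp i, hq i, hp j, hq j]
      linear_combination 2 * (u i * u j) * he + (u i * v j + u j * v i) * hb +
        2 * (v i * v j) * ha
  have hG : ∀ G : ℤ, (∀ i j, G ∣ m i j) → G ∣ 1 := by
    intro G hG
    have hkey : ∀ Y : Fin (n + 2) → ℤ, ∀ S : Finset (Fin (n + 2)),
        G ∣ e * (∑ k ∈ S, Y k * u k) ^ 2 + b' * ((∑ k ∈ S, Y k * u k) * (∑ k ∈ S, Y k * v k)) +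
          a * (∑ k ∈ S, Y k * v k) ^ 2 := by
      intro Y S
      induction S using Finset.induction_on with
      | empty => simp
      | insert k S hk ih =>
        rw [sum_insert hk, sum_insert hk]
        have h1 : G ∣ Y k ^ 2 * m k k := (hG k k).mul_left _
        have h2 : G ∣ Y k * ∑ i ∈ S, Y i * m i k :=
          (Finset.dvd_sum (fun i _ => (hG i k).mul_left _)).mul_left _
        have h3 : ∑ i ∈ S, Y i * m i k = 2 * e * ((∑ i ∈ S, Y i * u i) * u k) +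
            b' * ((∑ i ∈ S, Y i * u i) * v k + u k * (∑ i ∈ S, Y i * v i)) +
            2 * a * ((∑ i ∈ S, Y i * v i) * v k) := by
          simp only [sum_mul, mul_sum, mul_add, ← sum_add_distrib]
          refine sum_congr rfl (fun i hi => ?_)
          have hik : i ≠ k := fun h => hk (h ▸ hi)
          simp only [m, if_neg hik]
          ring
        rw [h3] at h2
        have h4 : m k k = e * u k ^ 2 + b' * (u k * v k) + a * v k ^ 2 := by simp [m]
        rw [h4] at h1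
        refine (Int.dvd_add (Int.dvd_add ih h1) h2).trans (dvd_of_eq ?_)
        ring
    have h10 : G ∣ e := by
      obtain ⟨l, h1, h2⟩ := hr.surj 1 0
      have := hkey l univ
      rw [h1, h2] at this
      simpa using this
    have h01 : G ∣ a := by
      obtain ⟨l, h1, h2⟩ := hr.surj 0 1
      have := hkey l univ
      rw [h1, h2] at this
      simpa using this
    have h11 : G ∣ b' := by
      obtain ⟨l, h1, h2⟩ := hr.surj 1 1
      have := hkey l univ
      rw [h1, h2] at this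
      have h3 : G ∣ (e * 1 ^ 2 + b' * (1 * 1) + a * 1 ^ 2) - e - a :=
        Int.dvd_sub (Int.dvd_sub this h10) h01
      refine h3.trans (dvd_of_eq (by ring))
    rw [← hbez]
    exact Int.dvd_add (Int.dvd_add (h01.mul_left _) (h11.mul_left _)) (h10.mul_left _)
  have hcont : cont p q D = c := by
    unfold cont
    have h1 : (fun ij : Fin (n + 2) × Fin (n + 2) => nc p q D ij.1 ij.2) =
        fun ij => c * m ij.1 ij.2 := by
      funext ij; exact hm ij.1 ij.2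
    rw [h1, Finset.gcd_mul_left, Int.normalize_of_nonneg hcpos.le]
    have h2 : (univ : Finset (Fin (n + 2) × Fin (n + 2))).gcd (fun ij => m ij.1 ij.2) ∣ 1 :=
      hG _ (fun i j => Finset.gcd_dvd (f := fun ij : Fin (n + 2) × Fin (n + 2) => m ij.1 ij.2)
        (mem_univ (i, j)))
    have h3 : (univ : Finset (Fin (n + 2) × Fin (n + 2))).gcd (fun ij => m ij.1 ij.2) = 1 := by
      rw [← Finset.normalize_gcd]
      exact normalize_eq_one.2 (isUnit_of_dvd_one h2)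
    rw [h3, mul_one]
  refine ⟨L, u, v, a, -b', e, |f|, c, s1, s2, t1, t2, hr, hind, ⟨⟨x, -y, z, by linarith⟩, ?_,
    abs_pos.2 hf0, hD, hD1⟩, hcpos, hp, hq, he, ha, ?_, hcont⟩
  · rw [sq_abs, ← hdisc2]; ring
  · rw [hb]; ring

end Pool.Agent.Q256.T4
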